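import Pool.Agent.V11101.Ext2

/-!
# The absolute p-extendability constants of n-point spaces tend to infinity
-/

open scoped NNReal ENNReal Topology
open Filter Pool.Agent.V11101.Ext

namespace Pool.Agent.Results.MP_4d6431_an.LimitInfinite

/-- `ae_p(n)`: the supremum of `ae_p(A)` over the nonempty metric spaces `A` with at most `n`
points. -/
noncomputable def ae (p : ℝ) (n : ℕ) : ℝ≥0∞ :=
  ⨆ (A : Type) (_ : MetricSpace A) (_ : Nonempty A) (_ : ENat.card A ≤ n), aeC p A

/-- For every `n ≥ 3`, `ae_p(n) → ∞` as `p → 0`. -/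
theorem result (n : ℕ) (hn : 3 ≤ n) : Tendsto (fun p : ℝ => ae p n) (𝓝[>] 0) (𝓝 ⊤) := by
  have h1 := aeC_tendsto (D := 1) one_pos le_rfl
  refine tendsto_nhds_top_mono' h1 fun p => ?_
  have hcard : ENat.card (Option Bool) ≤ n := by
    rw [ENat.card_eq_coe_fintype_card]
    have : Fintype.card (Option Bool) = 3 := rfl
    rw [this]
    exact_mod_cast hn
  exact le_iSup_of_le (Option Bool) (le_iSup_of_le (metN one_pos)
    (le_iSup_of_le inferInstance (le_iSup_of_le hcard le_rfl)))

end Pool.Agent.Results.MP_4d6431_an.LimitInfinite
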