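import Pool.Agent.V11101.Ext2

/-!
# The value of S(n,m)
-/

open scoped NNReal ENNReal Topology
open Filter Pool.Agent.V11101.Ext

namespace Pool.Agent.Results.MP_4d6431_an.TraceValue

/-- `S(n,m)`: the supremum of the limits, as `p → 0`, of the `p`-traces of `A ⊆ M`, over all
metric spaces `M` and nonempty subsets `A` with `|A| ≤ n` and `|M ∖ A| ≤ m`. -/
noncomputable def S (n m : ℕ) : ℝ≥0∞ :=
  sSup {L : ℝ≥0∞ | ∃ (M : Type) (_ : MetricSpace M) (A : Set M), A.Nonempty ∧ A.encard ≤ n ∧
    Aᶜ.encard ≤ m ∧ Tendsto (fun p : ℝ => trace p A) (𝓝[>] 0) (𝓝 L)}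

/-- `S(n,m) = m + 1` for all `n ≥ 3` and all `m`. -/
theorem result (n m : ℕ) (hn : 3 ≤ n) : S n m = (m : ℝ≥0∞) + 1 := by
  apply le_antisymm
  · refine sSup_le ?_
    rintro L ⟨M, _, A, hne, hA, hm, hL⟩
    exact le_of_tendsto hL (Eventually.of_forall fun p =>
      trace_le (Set.finite_of_encard_le_coe hA) hne m hm)
  · have hinj : Function.Injective (inc m) := by
      let _ := metN (D := 1) one_pos
      let _ := metM m (D := 1) one_pos
      exact (isometry_inc m (D := 1) one_pos).injective
    have hn1 : (Set.range (inc m)).ncard = 3 := by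
      rw [← Set.image_univ, Set.ncard_image_of_injective _ hinj, Set.ncard_univ,
        Nat.card_eq_fintype_card]
      rfl
    have hn2 : (Set.range (inc m))ᶜ.ncard = m := by
      have h := Set.ncard_add_ncard_compl (Set.range (inc m))
      rw [hn1, Nat.card_eq_fintype_card, Fintype.card_option, Fintype.card_fin] at h
      omega
    have e1 : (Set.range (inc m)).encard ≤ n := by
      rw [← (Set.toFinite (Set.range (inc m))).cast_ncard_eq, hn1]
      exact_mod_cast hn
    have e2 : (Set.range (inc m))ᶜ.encard ≤ m := by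
      rw [← (Set.toFinite (Set.range (inc m))ᶜ).cast_ncard_eq, hn2]
    refine le_sSup ⟨Option (Fin (m + 2)), metM m (D := 1) one_pos, Set.range (inc m),
      Set.range_nonempty _, e1, e2, ?_⟩
    refine tendsto_of_tendsto_of_tendsto_of_le_of_le' (tendsto_lower m 1) tendsto_const_nhds ?_ ?_
    · filter_upwards [eventually_small m 1] with p hp
      exact trace_ge hp.1 hp.2.1 m one_pos le_rfl hp.2.2
    · exact Eventually.of_forall fun p =>
        @trace_le _ (metM m (D := 1) one_pos) p _ (Set.toFinite _) (Set.range_nonempty _) m e2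

end Pool.Agent.Results.MP_4d6431_an.TraceValue
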